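import Pool.Agent.SGP.Bounds

namespace Pool.Agent.SGP2

open Pool.Agent.SGP

/-- `clog (μ l)` is at most a multiple of `log l + 1` -/
lemma clog_le (μ l : ℕ) (hl : 1 ≤ l) : Nat.clog 2 (μ*l) + 1 ≤ (μ+2)*(Nat.log 2 l + 1) := by
  have h1 : μ ≤ 2^μ := Nat.lt_two_pow_self.le
  have h2 : l ≤ 2^(Nat.log 2 l + 1) := (Nat.lt_pow_succ_log_self (by norm_num) l).le
  have h3 : μ*l ≤ 2^(μ + (Nat.log 2 l + 1)) := by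
    rw [pow_add]
    exact Nat.mul_le_mul h1 h2
  have h4 : Nat.clog 2 (μ*l) ≤ μ + (Nat.log 2 l + 1) := Nat.clog_le_of_le_pow h3
  have h5 : μ ≤ μ*(Nat.log 2 l + 1) := Nat.le_mul_of_pos_right _ (by omega)
  have h6 : (μ+2)*(Nat.log 2 l + 1) = μ*(Nat.log 2 l + 1) + 2*(Nat.log 2 l + 1) := by ring
  omega

/-- the size of `r₀` -/
lemma Bd_r (T l lam L G K w r₀ c1 c2 X : ℕ) (hX : X = T^lam) (hX2 : 2 ≤ X) (hXl : l ≤ X) (hT : 2 ≤ T)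
    (hlam : lam ≤ l) (hLG : L ≤ G) (hK : K ≤ c1*lam) (hw : w ≤ c2*(l*G))
    (hr : r₀ = (T+1)^K*(K*L+2*w)) :
    r₀ ≤ X^(3*c1+2*c2+1)*G := by
  have hTK : (T+1)^K ≤ X^(2*c1) := by
    have e1 : T + 1 ≤ T^2 := by nlinarith
    calc (T+1)^K ≤ (T^2)^K := Nat.pow_le_pow_left e1 K
      _ ≤ (T^2)^(c1*lam) := Nat.pow_le_pow_right (by positivity) hK
      _ = X^(2*c1) := by rw [hX, ← pow_mul, ← pow_mul]; congr 1; ring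
  have hKL : K*L + 2*w ≤ (c1+2*c2)*(l*G) := by
    have e1 : K*L ≤ c1*(l*G) := by
      calc K*L ≤ (c1*l)*G := Nat.mul_le_mul (hK.trans (Nat.mul_le_mul_left _ hlam)) hLG
        _ = c1*(l*G) := by ring
    calc K*L + 2*w ≤ c1*(l*G) + 2*(c2*(l*G)) := Nat.add_le_add e1 (Nat.mul_le_mul_left _ hw)
      _ = (c1+2*c2)*(l*G) := by ring
  have hKL2 : K*L + 2*w ≤ X^(c1+2*c2)*(X*G) :=
    hKL.trans (Nat.mul_le_mul (le_pow_of_two_le hX2 _) (Nat.mul_le_mul_right _ hXl))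
  rw [hr]
  calc (T+1)^K*(K*L+2*w) ≤ X^(2*c1)*(X^(c1+2*c2)*(X*G)) := Nat.mul_le_mul hTK hKL2
    _ = X^(2*c1 + (c1+2*c2) + 1)*G := by rw [pow_add, pow_add, pow_one]; ring
    _ = X^(3*c1+2*c2+1)*G := by congr 2; ring

/-- all auxiliary quantities are bounded by `T^(c (log l + 1)) (L+D)` -/
theorem bounds (κ μ Q B Cw : ℕ) (hQ : 1 ≤ Q) : ∃ c : ℕ, ∀ (T l L D : ℕ), 2 ≤ T → 1 ≤ l → 1 ≤ L → 1 ≤ D →
    ∀ K w r₀ ρ : ℕ, K = κ*(Nat.clog 2 (μ*l) + 1) + Q → w = κ*(κ*(D+B+1)+1) + Q*(l+1) →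
      r₀ = (T+1)^K*(K*L+2*w) → ρ = Q*l + r₀ + 1 →
      r₀ ≤ T^(c*(Nat.log 2 l + 1))*(L+D) ∧ Q*l + 2*r₀ + 2 + L ≤ T^(c*(Nat.log 2 l + 1))*(L+D) ∧
      Cw*(Q*(r₀+1+3*ρ)) ≤ T^(c*(Nat.log 2 l + 1))*(L+D) ∧
      Cw*Q ≤ T^(c*(Nat.log 2 l + 1))*(L+D) ∧
      Q*ρ + Q*l + r₀ + w + 2*l + ρ ≤ T^(c*(Nat.log 2 l + 1))*(L+D) ∧
      Cw*(T+2)^Cw*(2*Q*ρ+1) ≤ T^(c*(Nat.log 2 l + 1))*(L+D) := by
  obtain ⟨c1, hc1⟩ : ∃ c1, c1 = κ*(μ+2) + Q := ⟨_, rfl⟩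
  obtain ⟨c2, hc2⟩ : ∃ c2, c2 = κ*κ*(B+2) + κ + 2*Q := ⟨_, rfl⟩
  obtain ⟨a, ha⟩ : ∃ a, a = 3*c1+2*c2+1 := ⟨_, rfl⟩
  refine ⟨4 + (Cw+1) + 2*Cw + Q + (a+c2+Q+3), ?_⟩
  intro T l L D hT hl hL hD K w r₀ ρ hK hw hr hρ
  have hlog := clog_le μ l hl
  obtain ⟨lam, hlam⟩ : ∃ lam, lam = Nat.log 2 l + 1 := ⟨_, rfl⟩
  rw [← hlam] at hlog ⊢
  have hlam1 : 1 ≤ lam := by omega
  have hl2 : l < 2^lam := by
    rw [hlam]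
    exact Nat.lt_pow_succ_log_self (by norm_num) l
  have hlaml : lam ≤ l := by
    rw [hlam]
    exact Nat.log_lt_self 2 (by omega)
  obtain ⟨G, hG⟩ : ∃ G, G = L + D := ⟨_, rfl⟩
  have hG1 : 1 ≤ G := by omega
  have hLG : L ≤ G := by omega
  obtain ⟨X, hX⟩ : ∃ X, X = T^lam := ⟨_, rfl⟩
  have hX2 : 2 ≤ X := by
    rw [hX]
    calc 2 = 2^1 := rfl
      _ ≤ T^1 := Nat.pow_le_pow_left hT 1
      _ ≤ T^lam := Nat.pow_le_pow_right (by omega) hlam1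
  have hXl : l ≤ X := by
    rw [hX]
    exact hl2.le.trans (Nat.pow_le_pow_left hT lam)
  have hTX : T ≤ X := by
    rw [hX]
    calc T = T^1 := (pow_one T).symm
      _ ≤ T^lam := Nat.pow_le_pow_right (by omega) hlam1
  have hpow : ∀ c, T^(c*lam) = X^c := by
    intro c
    rw [hX, ← pow_mul, mul_comm]
  rw [hpow, ← hG]
  have hK1 : K ≤ c1*lam := by
    rw [hK, hc1]
    calc κ*(Nat.clog 2 (μ*l) + 1) + Q ≤ κ*((μ+2)*lam) + Q*lam :=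
          Nat.add_le_add (Nat.mul_le_mul_left _ hlog) (Nat.le_mul_of_pos_right _ hlam1)
      _ = (κ*(μ+2) + Q)*lam := by ring
  have hw1 : w ≤ c2*(l*G) := Bd_w κ Q B l L D G w c2 hG hl hG1 hw hc2
  have hr1 : r₀ ≤ X^a*G := by
    rw [ha]
    exact Bd_r T l lam L G K w r₀ c1 c2 X hX hX2 hXl hT hlaml hLG hK1 hw1 hr
  obtain ⟨U, hU⟩ : ∃ U, U = r₀ + w + Q*l + L := ⟨_, rfl⟩
  have hU1 : U ≤ X^(a+c2+Q+3)*G := Bd_U l L G w r₀ Q X U a c2 hX2 hXl hG1 hLG hw1 hr1 hU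
  have hP : (T+2)^Cw ≤ X^(2*Cw) := by
    have e1 : T + 2 ≤ X^2 := by nlinarith
    calc (T+2)^Cw ≤ (X^2)^Cw := Nat.pow_le_pow_left e1 _
      _ = X^(2*Cw) := by rw [← pow_mul]
  refine Bd_six Q Cw l L w r₀ ρ U ((T+2)^Cw) _ hQ (Nat.one_le_pow _ _ (by omega)) hU hL hρ ?_
  have h11 : 11 ≤ X^4 := by
    calc 11 ≤ 2^4 := by norm_num
      _ ≤ X^4 := Nat.pow_le_pow_left hX2 4
  calc 11*((Cw+1)*((T+2)^Cw*(Q*U))) ≤ X^4*(X^(Cw+1)*(X^(2*Cw)*(X^Q*(X^(a+c2+Q+3)*G)))) :=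
        Nat.mul_le_mul h11 (Nat.mul_le_mul (le_pow_of_two_le hX2 _) (Nat.mul_le_mul hP
          (Nat.mul_le_mul (le_pow_of_two_le hX2 _) hU1)))
    _ = X^(4 + (Cw+1) + 2*Cw + Q + (a+c2+Q+3))*G := by
        rw [← mul_assoc, ← mul_assoc, ← mul_assoc, ← mul_assoc, ← pow_add, ← pow_add, ← pow_add, ← pow_add]

end Pool.Agent.SGP2
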