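import Pool.Agent.SGP2.Main
import Pool.Agent.SGP.Digits
import Pool.Agent.SGP.CorN

open Finset Filter

namespace Pool.Agent.SGP2

open Pool.Agent.SGP

lemma ech_ne {α : ℝ} {b k : ℕ} (hk : 2 ≤ k) (h : ech α b k ≠ 0) :
    ⌊α * (b:ℝ)^k⌋ % b ≠ ⌊α * (b:ℝ)^(k-1)⌋ % b := by
  intro heq
  refine h ?_
  have e1 : k ≠ 0 := by omega
  have e2 : k ≠ 1 := by omega
  unfold ech
  rw [if_neg e1, if_neg e2, heq, sub_self]

theorem short_run (α : ℝ) (hα : IsAlgebraic ℚ α) (hirr : Irrational α) (b : ℕ) (hb : 2 ≤ b)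
    (θ : ℝ) (hθ0 : 0 < θ) (hθ1 : θ < 1) :
    ∃ c : ℝ, 0 < c ∧ ∀ᶠ n : ℕ in atTop, ∃ k k' : ℕ, (n:ℝ)^θ ≤ k ∧ k < k' ∧ k' ≤ n ∧
      ⌊α * (b:ℝ)^k⌋ % b ≠ ⌊α * (b:ℝ)^(k-1)⌋ % b ∧
      ⌊α * (b:ℝ)^k'⌋ % b ≠ ⌊α * (b:ℝ)^(k'-1)⌋ % b ∧ (k':ℝ) - k < (n:ℝ)^(1-c) := by
  obtain ⟨κ, hκ⟩ := main _ (ech_alg α hα b) (ech_irr α hirr b hb) b b hb
  obtain ⟨c, hc⟩ : ∃ c : ℝ, c = (1-θ)/(2*(κ+1)) := ⟨_, rfl⟩
  obtain ⟨hc0, hev⟩ := size_ok κ θ c hθ0 hθ1 hc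
  refine ⟨c, hc0, ?_⟩
  filter_upwards [hκ, hev, eventually_ge_atTop 1] with n hn h hn1
  obtain ⟨h1, h2, h3, h4⟩ := h
  have hn0 : (0:ℝ) < n := by
    have : 0 < n := hn1
    exact_mod_cast this
  have hL1 : 1 ≤ ⌈(n:ℝ)^θ⌉₊ := Nat.ceil_pos.2 (by linarith)
  by_contra hcon
  push Not at hcon
  have hge : ∀ k : ℕ, (n:ℝ)^θ ≤ k → 2 ≤ k := by
    intro k hk
    have : (2:ℝ) ≤ k := h1.trans hk
    exact_mod_cast this
  have hy : 0 < (n:ℝ)^(1-c) := Real.rpow_pos_of_pos hn0 _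
  have hx : (n:ℝ)/(n:ℝ)^(1-c) ≤ (n:ℝ)^c := by
    rw [div_le_iff₀ hy, ← Real.rpow_add hn0]
    ring_nf
    rw [Real.rpow_one]
  obtain ⟨cc, hcc⟩ := cover_sep n ((n:ℝ)^c) ((n:ℝ)^(1-c)) ((n:ℝ)^θ) hy hx ⌈(n:ℝ)^θ⌉₊ (Nat.le_ceil _)
    hL1 (fun k => ech α b k ≠ 0) (by
      intro k k' q1 q2 q3 q4 q5
      exact hcon k k' q1 q2 q3 (ech_ne (hge k q1) q4) (ech_ne ((hge k q1).trans q2.le) q5))
  have hl1 : Nat.log 2 1 + 1 = 1 := by simp
  obtain ⟨k, k', r1, r2, r3, r4, r5, r6⟩ := hn (ech α b) (ech_bd α b hb) (ech_hasSum α b hb) 1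
    ⌈(n:ℝ)^θ⌉₊ (⌊(n:ℝ)^c⌋₊+2) le_rfl hL1 (by omega) (by rw [hl1]; exact h3.trans h4) cc hcc
  rw [hl1] at r6
  have hk : (n:ℝ)^θ ≤ k := by
    have r1' : (n:ℝ) ≤ κ*k := by exact_mod_cast r1
    have h5 : κ * (n:ℝ)^θ < κ*k := h2.trans_le r1'
    exact (lt_of_mul_lt_mul_left h5 (by positivity)).le
  have hkk : k < k' := by omega
  have := hcon k k' hk hkk r3 (ech_ne (hge k hk) r4) (ech_ne ((hge k hk).trans hkk.le) r5)
  linarith

/-- enumeration of a finite set with few elements -/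
lemma enum_cover (S : Finset ℕ) (T : ℕ) (h : #S ≤ T) :
    ∃ c : Fin T → ℕ, ∀ k ∈ S, ∃ i, c i ≤ k ∧ k < c i + 1 := by
  classical
  have e := S.equivFin
  refine ⟨fun i => if hi : (i:ℕ) < #S then (e.symm ⟨i, hi⟩ : ℕ) else 0, ?_⟩
  intro k hk
  refine ⟨⟨(e ⟨k, hk⟩ : ℕ), lt_of_lt_of_le (e ⟨k, hk⟩).2 h⟩, ?_⟩
  have h1 : ((e ⟨k, hk⟩ : Fin #S) : ℕ) < #S := (e ⟨k, hk⟩).2
  have h2 : (if hi : ((e ⟨k, hk⟩ : Fin #S) : ℕ) < #S then
      (e.symm ⟨(e ⟨k, hk⟩ : Fin #S), hi⟩ : ℕ) else 0) = k := by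
    rw [dif_pos h1]
    simp
  simp only [h2]
  omega

/-- the size condition -/
lemma size2 (κ : ℕ) (ε c : ℝ) (hε : 0 < ε) (hc : c = ε/(20*(κ+1))) :
    ∀ᶠ n : ℕ in atTop, ∀ (D : ℕ), 2 ≤ D → Real.log D ≤ c * Real.log n →
      ((D+1 : ℕ):ℝ)^(κ*(Nat.log 2 (⌊Real.exp (c * Real.log n / Real.log D)⌋₊ + 1) + 1)) *
        (((1:ℕ):ℝ) + Real.log n) ≤ (n:ℝ)^ε := by
  have hid : Tendsto (fun n : ℕ => (n:ℝ)) atTop atTop := tendsto_natCast_atTop_atTop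
  have t1 : ∀ᶠ n : ℕ in atTop, Real.log n ≤ (1/2) * (n:ℝ)^(ε/2) := by
    have h := (isLittleO_log_rpow_atTop (half_pos hε)).bound (by norm_num : (0:ℝ) < 1/2)
    have h2 := hid.eventually h
    filter_upwards [h2, eventually_ge_atTop 1] with n hn hn1
    have hn0 : (0:ℝ) ≤ n := by positivity
    rw [Real.norm_eq_abs, Real.norm_eq_abs, abs_of_nonneg (Real.rpow_nonneg hn0 _)] at hn
    exact (le_abs_self _).trans hn
  have t2 : ∀ᶠ n : ℕ in atTop, (2:ℝ) ≤ (n:ℝ)^(ε/2) :=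
    ((tendsto_rpow_atTop (half_pos hε)).comp hid).eventually_ge_atTop _
  filter_upwards [t1, t2, eventually_ge_atTop 1] with n h1 h2 hn D hD hDn
  have hn1 : (1:ℝ) ≤ n := by exact_mod_cast hn
  have hn0 : (0:ℝ) < n := by linarith
  have hlog0 : 0 ≤ Real.log n := Real.log_nonneg hn1
  have hκ0 : (0:ℝ) ≤ κ := by positivity
  have hc0 : 0 < c := by rw [hc]; positivity
  have hD2 : (2:ℝ) ≤ D := by exact_mod_cast hD
  have hlD : Real.log 2 ≤ Real.log D := Real.log_le_log (by norm_num) hD2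
  have hl2 : (0.69:ℝ) < Real.log 2 := by linarith [Real.log_two_gt_d9]
  have hl2' : Real.log 2 < 1 := by linarith [Real.log_two_lt_d9]
  have hlD0 : 0 < Real.log D := by linarith
  obtain ⟨E, hE⟩ : ∃ E, E = c * Real.log n / Real.log D := ⟨_, rfl⟩
  rw [← hE]
  have hE0 : 0 ≤ E := by rw [hE]; positivity
  obtain ⟨l, hl⟩ : ∃ l : ℕ, l = ⌊Real.exp E⌋₊ + 1 := ⟨_, rfl⟩
  rw [← hl]
  obtain ⟨J, hJ⟩ : ∃ J : ℕ, J = Nat.log 2 l + 1 := ⟨_, rfl⟩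
  rw [← hJ]
  -- `J ≤ 2 + 2 E`
  have hJE : (J:ℝ) ≤ 3 + 2*E := by
    have e1 : (2:ℝ)^(Nat.log 2 l) ≤ l := by
      exact_mod_cast Nat.pow_log_le_self 2 (by omega : l ≠ 0)
    have e2 : (l:ℝ) ≤ Real.exp E + 1 := by
      rw [hl]
      push_cast
      have := Nat.floor_le (Real.exp_pos E).le
      linarith
    have e3 : (l:ℝ) ≤ Real.exp (E + Real.log 2) := by
      rw [Real.exp_add, Real.exp_log (by norm_num)]
      have : 1 ≤ Real.exp E := Real.one_le_exp hE0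
      linarith
    have e4 : (Nat.log 2 l : ℝ) * Real.log 2 ≤ E + Real.log 2 := by
      rw [← Real.log_pow]
      have h3 : 0 < (2:ℝ)^(Nat.log 2 l) := by positivity
      calc Real.log ((2:ℝ)^(Nat.log 2 l)) ≤ Real.log (Real.exp (E + Real.log 2)) :=
            Real.log_le_log h3 (e1.trans e3)
        _ = _ := Real.log_exp _
    have e5 : (Nat.log 2 l : ℝ) ≤ 2 + 2*E := by
      by_contra hcon
      push Not at hcon
      nlinarith
    rw [hJ]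
    push_cast
    linarith
  -- the power
  have hT : ((D+1 : ℕ):ℝ) ≤ (D:ℝ)^2 := by
    push_cast
    nlinarith
  have hpow : ((D+1 : ℕ):ℝ)^(κ*J) ≤ (n:ℝ)^(ε/2) := by
    have e1 : ((D+1 : ℕ):ℝ)^(κ*J) ≤ ((D:ℝ)^2)^(κ*J) := pow_le_pow_left₀ (by positivity) hT _
    have e2 : ((D:ℝ)^2)^(κ*J) = Real.exp (2*κ*J*Real.log D) := by
      have e3 : (D:ℝ) = Real.exp (Real.log D) := (Real.exp_log (by linarith)).symm
      conv_lhs => rw [e3]
      rw [← Real.exp_nat_mul, ← Real.exp_nat_mul]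
      congr 1
      push_cast
      ring
    have e4 : 2*κ*J*Real.log D ≤ (ε/2) * Real.log n := by
      have e5 : (J:ℝ)*Real.log D ≤ 3 * Real.log D + 2*(c*Real.log n) := by
        have e6 : E * Real.log D = c * Real.log n := by
          rw [hE]
          field_simp
        calc (J:ℝ)*Real.log D ≤ (3 + 2*E) * Real.log D := mul_le_mul_of_nonneg_right hJE hlD0.le
          _ = 3 * Real.log D + 2*(E*Real.log D) := by ring
          _ = _ := by rw [e6]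
      have e7 : (J:ℝ)*Real.log D ≤ 5*(c*Real.log n) := by linarith
      have e8 : 2*κ*J*Real.log D ≤ 2*κ*(5*(c*Real.log n)) := by
        calc 2*κ*J*Real.log D = 2*κ*(J*Real.log D) := by ring
          _ ≤ _ := mul_le_mul_of_nonneg_left e7 (by positivity)
      refine e8.trans ?_
      have e9 : 2*κ*(5*(c*Real.log n)) = (10*κ*c)*Real.log n := by ring
      rw [e9]
      refine mul_le_mul_of_nonneg_right ?_ hlog0
      rw [hc]
      have e10 : (10:ℝ)*κ*(ε/(20*(κ+1))) = ε*(10*κ/(20*(κ+1))) := by ring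
      rw [e10, div_eq_mul_inv ε 2]
      refine mul_le_mul_of_nonneg_left ?_ hε.le
      rw [div_le_iff₀ (by positivity)]
      linarith
    have e5 : Real.exp ((ε/2)*Real.log n) = (n:ℝ)^(ε/2) := by
      rw [Real.rpow_def_of_pos hn0, mul_comm]
    calc ((D+1 : ℕ):ℝ)^(κ*J) ≤ ((D:ℝ)^2)^(κ*J) := e1
      _ = Real.exp (2*κ*J*Real.log D) := e2
      _ ≤ Real.exp ((ε/2)*Real.log n) := Real.exp_le_exp.2 e4
      _ = _ := e5
  have hlog : ((1:ℕ):ℝ) + Real.log n ≤ (n:ℝ)^(ε/2) := by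
    push_cast
    linarith
  calc ((D+1 : ℕ):ℝ)^(κ*J) * (((1:ℕ):ℝ) + Real.log n) ≤ (n:ℝ)^(ε/2) * (n:ℝ)^(ε/2) :=
        mul_le_mul hpow hlog (by push_cast; positivity) (by positivity)
    _ = (n:ℝ)^ε := by
        rw [← Real.rpow_add hn0]
        congr 1
        ring

/-- if at most `D` digits up to `n` differ from the previous one and `log D ≤ c log n`, two such changes
have a distance between `n^(c/log D)` and `n^ε` -/
theorem change_gap (α : ℝ) (hα : IsAlgebraic ℚ α) (hirr : Irrational α) (b : ℕ) (hb : 2 ≤ b)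
    (ε : ℝ) (hε0 : 0 < ε) (hε1 : ε < 1) :
    ∃ c : ℝ, 0 < c ∧ ∀ᶠ n : ℕ in atTop, ∀ D : ℕ, 2 ≤ D → Real.log D ≤ c * Real.log n →
      #{k ∈ Icc 1 n | ⌊α * (b:ℝ)^k⌋ % b ≠ ⌊α * (b:ℝ)^(k-1)⌋ % b} ≤ D →
      ∃ k k' : ℕ, c * n ≤ k ∧ k < k' ∧ k' ≤ n ∧
        ⌊α * (b:ℝ)^k⌋ % b ≠ ⌊α * (b:ℝ)^(k-1)⌋ % b ∧
        ⌊α * (b:ℝ)^k'⌋ % b ≠ ⌊α * (b:ℝ)^(k'-1)⌋ % b ∧
        Real.exp (c * Real.log n / Real.log D) < (k':ℝ) - k ∧ (k':ℝ) - k < (n:ℝ)^ε := by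
  classical
  obtain ⟨κ, hκ⟩ := main _ (ech_alg α hα b) (ech_irr α hirr b hb) b b hb
  obtain ⟨c, hc⟩ : ∃ c : ℝ, c = ε/(20*(κ+1)) := ⟨_, rfl⟩
  have hc0 : 0 < c := by rw [hc]; positivity
  refine ⟨c, hc0, ?_⟩
  filter_upwards [hκ, size2 κ ε c hε0 hc, eventually_ge_atTop (2*(κ+1))] with n hn hs hn1
  intro D hD hlog hcard
  have hn0 : (0:ℝ) < n := by
    have : 0 < n := by omega
    exact_mod_cast this
  have hn1' : (1:ℝ) ≤ n := by
    have : 1 ≤ n := by omega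
    exact_mod_cast this
  have hs1 := hs D hD hlog
  have hnε : (n:ℝ)^ε ≤ n := by
    calc (n:ℝ)^ε ≤ (n:ℝ)^(1:ℝ) := Real.rpow_le_rpow_of_exponent_le hn1' hε1.le
      _ = n := Real.rpow_one _
  obtain ⟨cc, hcc⟩ := enum_cover (insert 1
    {k ∈ Icc 1 n | ⌊α * (b:ℝ)^k⌋ % b ≠ ⌊α * (b:ℝ)^(k-1)⌋ % b}) (D+1)
    ((Finset.card_insert_le _ _).trans (Nat.add_le_add_right hcard 1))
  obtain ⟨k, k', r1, r2, r3, r4, r5, r6⟩ := hn (ech α b) (ech_bd α b hb) (ech_hasSum α b hb)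
    (⌊Real.exp (c * Real.log n / Real.log D)⌋₊ + 1) 1 (D+1) (by omega) le_rfl (by omega)
    (hs1.trans hnε) cc (by
      intro k hk hne
      refine hcc k ?_
      by_cases hk1 : k = 1
      · rw [hk1]
        exact Finset.mem_insert_self _ _
      · refine Finset.mem_insert_of_mem ?_
        have hk0 : k ≠ 0 := by
          rintro rfl
          exact hne (by simp [ech])
        rw [Finset.mem_filter, Finset.mem_Icc]
        exact ⟨⟨by omega, hk⟩, ech_ne (by omega) hne⟩)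
  have hk2 : 2 ≤ k := by
    by_contra hcon
    have h1 : κ*k ≤ κ*1 := Nat.mul_le_mul_left _ (by omega)
    omega
  have hkk : k < k' := by omega
  refine ⟨k, k', ?_, hkk, r3, ech_ne hk2 r4, ech_ne (hk2.trans hkk.le) r5, ?_, r6.trans_le hs1⟩
  · have h1 : (n:ℝ) ≤ κ*k := by exact_mod_cast r1
    have h2 : c * n ≤ c * (κ*k) := mul_le_mul_of_nonneg_left h1 hc0.le
    have h3 : c * κ ≤ 1 := by
      rw [hc, div_mul_eq_mul_div, div_le_one (by positivity)]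
      have : ε * κ ≤ 1 * κ := mul_le_mul_of_nonneg_right hε1.le (by positivity)
      have : (0:ℝ) ≤ κ := by positivity
      linarith
    have h4 : (0:ℝ) ≤ k := by positivity
    calc c * n ≤ c * (κ*k) := h2
      _ = (c*κ)*k := by ring
      _ ≤ 1*k := mul_le_mul_of_nonneg_right h3 h4
      _ = k := one_mul _
  · have h1 := Nat.lt_floor_add_one (Real.exp (c * Real.log n / Real.log D))
    have h2 : ((k + (⌊Real.exp (c * Real.log n / Real.log D)⌋₊ + 1) : ℕ):ℝ) < k' := by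
      exact_mod_cast r2
    push_cast at h2
    linarith

end Pool.Agent.SGP2
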