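import Pool.Agent.SGP.Defs

/-! # Doubling of the precision.
Let `H` be the cumulative sums of `h` and `π^m ∣ H (y - a)` for all `a ≤ y` in the support of `h`, and `π^m ∣ H y`.
With `H0 = H` where `π^m ∣ H` and `0` elsewhere: `Σ h_a H (y-a) = Σ h_a H0 (y-a) = Σ (dH0)_b H (y-b)`. Every `(dH0)_b` is
divisible by `π^m`, and `(dH0)_b ≠ 0` only if `h_b ≠ 0`, so `π^m ∣ H (y-b)`: the sum is divisible by `π^(2m)`. -/

open Finset Polynomial

namespace Pool.Agent.SGP2

open Pool.Agent.SGP

section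

variable {R : Type*} [CommRing R]

/-- all cumulative sums of `u` at `x - s`, `s` a `j`-fold sum, are divisible by `a` -/
def Dv (A : Finset ℕ) (x j : ℕ) (a : R) (u : R[X]) : Prop :=
  ∀ s ∈ ss A j, s ≤ x → a ∣ cm (x - s) u

lemma cm_succ (x : ℕ) (f : R[X]) : cm (x+1) f = cm x f + f.coeff (x+1) := by
  unfold cm
  rw [Finset.sum_range_succ]

lemma cm_zero (f : R[X]) : cm 0 f = f.coeff 0 := by
  unfold cm
  simp

/-- a polynomial with prescribed cumulative sums -/
lemma exists_cm (N : ℕ) (g : ℕ → R) :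
    ∃ f : R[X], (∀ x, x ≤ N → cm x f = g x) ∧ f.coeff 0 = g 0 ∧
      ∀ k, k + 1 ≤ N → f.coeff (k+1) = g (k+1) - g k := by
  classical
  let f : R[X] := ∑ k ∈ range (N+1), C (if k = 0 then g 0 else g k - g (k-1)) * X^k
  have hc : ∀ k, k ≤ N → f.coeff k = if k = 0 then g 0 else g k - g (k-1) := by
    intro k hk
    show (∑ k ∈ range (N+1), C (if k = 0 then g 0 else g k - g (k-1)) * X^k : R[X]).coeff k = _
    rw [Polynomial.finsetSum_coeff]
    simp only [Polynomial.coeff_C_mul_X_pow]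
    rw [Finset.sum_ite_eq, if_pos (mem_range.2 (by omega))]
  refine ⟨f, ?_, ?_, ?_⟩
  · intro x
    induction x with
    | zero =>
      intro h
      rw [cm_zero, hc 0 h, if_pos rfl]
    | succ x ih =>
      intro h
      rw [cm_succ, ih (by omega), hc (x+1) h, if_neg (by omega), Nat.add_sub_cancel]
      ring
  · rw [hc 0 (Nat.zero_le _), if_pos rfl]
  · intro k hk
    rw [hc (k+1) hk, if_neg (by omega), Nat.add_sub_cancel]

/-- the doubling lemma -/
theorem doubling (y : ℕ) (a : R) (h : R[X]) (h1 : ∀ i, i ≤ y → h.coeff i ≠ 0 → a ∣ cm (y - i) h) :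
    a * a ∣ cm y (h * h) := by
  classical
  obtain ⟨f, hf1, hf2, hf3⟩ := exists_cm y (fun t => if a ∣ cm t h then cm t h else 0)
  have e1 : cm y (h * h) = cm y (h * f) := by
    rw [cm_mul, cm_mul]
    refine Finset.sum_congr rfl fun i hi => ?_
    have hi' : i ≤ y := by
      have := mem_range.1 hi
      omega
    rw [hf1 (y - i) (Nat.sub_le _ _)]
    by_cases hc : h.coeff i = 0
    · rw [hc, zero_mul, zero_mul]
    · rw [if_pos (h1 i hi' hc)]
  rw [e1, mul_comm h f, cm_mul]
  refine Finset.dvd_sum fun i hi => ?_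
  have hi' : i ≤ y := by
    have := mem_range.1 hi
    omega
  have key : ∀ t, a ∣ (if a ∣ cm t h then cm t h else 0) := by
    intro t
    split_ifs with hd
    · exact hd
    · exact dvd_zero _
  by_cases hc : h.coeff i = 0
  · -- then `f.coeff i = 0`, unless `i = 0`
    rcases i with _ | i
    · rw [hf2, cm_zero, hc, if_pos (dvd_zero _), zero_mul]
      exact dvd_zero _
    · rw [hf3 i hi', cm_succ, hc, add_zero, sub_self, zero_mul]
      exact dvd_zero _
  · refine mul_dvd_mul ?_ (h1 i hi' hc)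
    rcases i with _ | i
    · rw [hf2]
      exact key 0
    · rw [hf3 i hi']
      exact dvd_sub (key _) (key _)

variable {A : Finset ℕ} {x i j : ℕ}

lemma Dv.mono (h0 : 0 ∈ A) (h : i ≤ j) {a : R} {u : R[X]} (hu : Dv A x j a u) : Dv A x i a u :=
  fun s hs => hu s (ss_le A h0 h hs)

lemma Dv.mul {a : R} {w u : R[X]} (hw : Su A i w) (hu : Dv A x (i+j) a u) : Dv A x j a (w*u) := by
  intro s hs hx
  rw [cm_mul]
  refine Finset.dvd_sum fun k hk => ?_
  rw [Finset.mem_range] at hk
  by_cases h : w.coeff k = 0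
  · rw [h, zero_mul]
    exact dvd_zero _
  · have h1 := hu (k + s) (ss_add A (hw k h) hs) (by omega)
    have h2 : x - s - k = x - (k + s) := by omega
    rw [h2]
    exact h1.mul_left _

/-- squares -/
lemma Dv.sq {a : R} {u : R[X]} (hu : Su A i u) (hd : Dv A x (i+j) a u) : Dv A x j (a*a) (u*u) := by
  intro s hs hx
  refine doubling (x - s) a u ?_
  intro k hk hc
  have h1 := hd (k + s) (ss_add A (hu k hc) hs) (by omega)
  have h2 : x - s - k = x - (k + s) := by omega
  rw [h2]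
  exact h1

end

/-- the Newton iteration with cost `log M` -/
theorem newton2 (R : Type) [CommRing R] (A : Finset ℕ) (h0 : 0 ∈ A) (x k κ M : ℕ) (π : R)
    (hπ : π^M = 0) (hk : (2*Nat.clog 2 M + 1)*κ ≤ k) (h S Z N₀ H₀ : R[X])
    (hS : Nu A x k S) (hZ : Su A κ Z) (e1 : h = S + Z * h^2) (hh : Su A κ h)
    (hN : Nu A x k N₀) (e0 : h = N₀ + C π * H₀) :
    cm x h = 0 := by
  have key : ∀ i : ℕ, ∀ j, j + 2*i*κ ≤ k → Dv A x j (π^(2^i)) h := by
    intro i
    induction i with
    | zero =>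
      intro j hj s hs hx
      rw [e0, cm_add, hN s (ss_le A h0 (by omega) hs) hx, zero_add, cm_C_mul, pow_zero, pow_one]
      exact dvd_mul_right _ _
    | succ i ih =>
      intro j hj s hs hx
      have h1 : Dv A x (κ + (κ + j)) (π^(2^i)) h := by
        refine ih (κ + (κ + j)) ?_
        have : 2*(i+1)*κ = 2*i*κ + (κ + κ) := by ring
        omega
      have h2 : Dv A x (κ + j) (π^(2^i)*π^(2^i)) (h*h) := Dv.sq hh h1
      have h3 := Dv.mul hZ h2 s hs hx
      rw [← pow_add] at h3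
      have h4 : 2^(i+1) = 2^i + 2^i := by rw [pow_succ]; ring
      rw [h4, e1, cm_add, hS s (ss_le A h0 (by omega) hs) hx, zero_add, pow_two]
      exact h3
  have h1 := key (Nat.clog 2 M) 0 (by
    have : (2*Nat.clog 2 M + 1)*κ = 2*Nat.clog 2 M*κ + κ := by ring
    omega) 0 (by simp [ss]) (Nat.zero_le _)
  have hM1 : M ≤ 2^(Nat.clog 2 M) := Nat.le_pow_clog (by norm_num) M
  have hz : π^(2^(Nat.clog 2 M)) = 0 := by
    obtain ⟨t, ht⟩ := Nat.exists_eq_add_of_le hM1
    rw [ht, pow_add, hπ, zero_mul]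
  rw [hz, Nat.sub_zero] at h1
  exact zero_dvd_iff.1 h1

end Pool.Agent.SGP2
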