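import Pool.Agent.SGP.FrD
import Pool.Agent.SGP2.Dbl

/-! # The dilation relation modulo `p^M`, cost `log M`. -/

open Finset Polynomial

namespace Pool.Agent.SGP2

open Pool.Agent.SGP

theorem frob_pp (P : ℤ[X]) (p i : ℕ) [Fact p.Prime]
    (hdvd : P.map (Int.castRingHom (ZMod p)) ∣ X^(p^i) - X)
    (U V : ℤ[X]) (D : ℤ) (hbez : U * derivative P + V * P = C D) (hD : ¬ (p:ℤ) ∣ D) :
    ∃ κ : ℕ, ∀ (M : ℕ) (A : Finset ℕ) (v : ℕ → ZMod (p^M)) (x : ℕ), 1 ≤ M → 0 ∈ A →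
      (∀ s ∈ ss A (κ*(Nat.clog 2 M + 1)), s ≤ x →
        cm (x - s) ((P.map (Int.castRingHom (ZMod (p^M)))).comp (gq A v)) = 0 ∧
        cm ((x - s)/p^i) ((P.map (Int.castRingHom (ZMod (p^M)))).comp (gq A v)) = 0) →
      pf A v (x/p^i) = pf A v x := by
  obtain ⟨Q, W, hQW⟩ := dvd_lift p i P hdvd
  obtain ⟨c, hc⟩ := taylor_su P
  have hq : 0 < p^i := pow_pos (Fact.out : p.Prime).pos i
  obtain ⟨κ₀, hκ₀⟩ : ∃ κ₀ : ℕ, κ₀ = Q.natDegree + P.natDegree + W.natDegree + p^i + U.natDegree +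
      c * p^i + P.natDegree * p^i + V.natDegree + p^i := ⟨_, rfl⟩
  refine ⟨5 * κ₀, fun M A v x hM h0 hx => ?_⟩
  obtain ⟨w, hw, hws⟩ := frob_lift p M i hM A v
  obtain ⟨D', hD'⟩ := FrD_unit p M D hD
  -- abbreviations
  obtain ⟨g, hg⟩ : ∃ g, g = gq A v := ⟨_, rfl⟩
  obtain ⟨ψ, hψ⟩ : ∃ ψ, ψ = expand (ZMod (p^M)) (p^i) g := ⟨_, rfl⟩
  obtain ⟨h, hh⟩ : ∃ h, h = ψ - g := ⟨_, rfl⟩
  rw [← hg] at hx hw
  rw [← hψ] at hw
  have hgs : Su A 1 g := by rw [hg]; exact su_gq v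
  have hgq : Su A (p^i) g := hgs.mono h0 hq
  have hψs : Su A (p^i) ψ := by rw [hψ, hg]; exact FrD_su_expand A v _ hq
  have hhs : Su A (p^i) h := by rw [hh]; exact hψs.sub hgq
  have hghψ : g + h = ψ := by rw [hh]; ring
  obtain ⟨U₁, hU₁s, hU₁⟩ := hc (ZMod (p^M)) A (p^i) g h h0 hgq hhs
  rw [hghψ] at hU₁
  obtain ⟨Pg, hPg⟩ : ∃ F, F = (P.map (Int.castRingHom (ZMod (p^M)))).comp g := ⟨_, rfl⟩
  obtain ⟨Pψ, hPψ⟩ : ∃ F, F = (P.map (Int.castRingHom (ZMod (p^M)))).comp ψ := ⟨_, rfl⟩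
  obtain ⟨P'g, hP'g⟩ : ∃ F, F = ((derivative P).map (Int.castRingHom (ZMod (p^M)))).comp g :=
    ⟨_, rfl⟩
  obtain ⟨Qg, hQg⟩ : ∃ F, F = (Q.map (Int.castRingHom (ZMod (p^M)))).comp g := ⟨_, rfl⟩
  obtain ⟨Wg, hWg⟩ : ∃ F, F = (W.map (Int.castRingHom (ZMod (p^M)))).comp g := ⟨_, rfl⟩
  obtain ⟨Ug, hUg⟩ : ∃ F, F = (U.map (Int.castRingHom (ZMod (p^M)))).comp g := ⟨_, rfl⟩
  obtain ⟨Vg, hVg⟩ : ∃ F, F = (V.map (Int.castRingHom (ZMod (p^M)))).comp g := ⟨_, rfl⟩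
  rw [← hPg, ← hP'g, ← hPψ] at hU₁
  -- supports
  have hsup : ∀ (F : ℤ[X]) (u : (ZMod (p^M))[X]) (j : ℕ), Su A j u →
      Su A (F.natDegree * j) ((F.map (Int.castRingHom (ZMod (p^M)))).comp u) := fun F u j hu =>
    su_comp h0 _ natDegree_map_le hu
  have sPg : Su A P.natDegree Pg := by
    rw [hPg]; have := hsup P g 1 hgs; rwa [mul_one] at this
  have sPψ : Su A (P.natDegree * p^i) Pψ := by rw [hPψ]; exact hsup P ψ _ hψs
  have sQg : Su A Q.natDegree Qg := by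
    rw [hQg]; have := hsup Q g 1 hgs; rwa [mul_one] at this
  have sWg : Su A W.natDegree Wg := by
    rw [hWg]; have := hsup W g 1 hgs; rwa [mul_one] at this
  have sUg : Su A U.natDegree Ug := by
    rw [hUg]; have := hsup U g 1 hgs; rwa [mul_one] at this
  have sVg : Su A V.natDegree Vg := by
    rw [hVg]; have := hsup V g 1 hgs; rwa [mul_one] at this
  -- null
  have nPg : Nu A x (5 * κ₀ * (Nat.clog 2 M + 1)) Pg := by
    intro s hs hsx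
    rw [hPg]
    exact (hx s hs hsx).1
  have nPψ : Nu A x (5 * κ₀ * (Nat.clog 2 M + 1)) Pψ := by
    intro s hs hsx
    rw [hPψ, hψ, FrD_comp_expand, FrD_cm_expand _ hq]
    exact (hx s hs hsx).2
  -- `e0`
  have e0' : g^(p^i) - g = Pg * Qg + C (p : ZMod (p^M)) * Wg := by
    have h1 := congrArg (fun F : ℤ[X] => (F.map (Int.castRingHom (ZMod (p^M)))).comp g) hQW
    simp only [Polynomial.map_sub, Polynomial.map_pow, map_X, Polynomial.map_mul,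
      Polynomial.map_add, map_C, sub_comp, pow_comp, X_comp, mul_comp, add_comp, C_comp] at h1
    rw [← hPg, ← hQg, ← hWg] at h1
    rw [h1]
    simp
  have e0 : h = Qg * Pg + C (p : ZMod (p^M)) * (Wg - w) := by
    have h1 : h = (g^(p^i) - g) - (g^(p^i) - ψ) := by rw [hh]; ring
    rw [h1, e0', hw]
    ring
  have hbez' : Ug * P'g + Vg * Pg = C (D : ZMod (p^M)) := by
    have h1 := congrArg (fun F : ℤ[X] => (F.map (Int.castRingHom (ZMod (p^M)))).comp g) hbez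
    simp only [Polynomial.map_mul, Polynomial.map_add, map_C, mul_comp, add_comp, C_comp] at h1
    rw [← hPg, ← hP'g, ← hUg, ← hVg] at h1
    rw [h1]
    simp
  have e1 : h = (C D' * (Ug * (Pψ - Pg) + (Vg * h) * Pg)) + (-(C D' * (Ug * U₁))) * h^2 := by
    have h1 : C D' * C (D : ZMod (p^M)) = 1 := by
      rw [← C_mul, hD', C_1]
    have h2 : h = C D' * C (D : ZMod (p^M)) * h := by rw [h1, one_mul]
    have h3 : Pψ - Pg = P'g * h + h^2 * U₁ := by rw [hU₁]; ring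
    rw [h3]
    calc h = C D' * C (D : ZMod (p^M)) * h := h2
      _ = C D' * (Ug * P'g + Vg * Pg) * h := by rw [hbez']
      _ = _ := by ring
  have hκM : (2*Nat.clog 2 M + 1) * κ₀ + κ₀ ≤ 5 * κ₀ * (Nat.clog 2 M + 1) := by
    have e1 : 5 * κ₀ * (Nat.clog 2 M + 1) = 5 * (Nat.clog 2 M * κ₀) + 5 * κ₀ := by ring
    have e2 : (2*Nat.clog 2 M + 1) * κ₀ = 2 * (Nat.clog 2 M * κ₀) + κ₀ := by ring
    omega
  have hpc : c * p^i ≤ κ₀ := by omega
  have key := newton2 (ZMod (p^M)) A h0 x ((2*Nat.clog 2 M + 1) * κ₀) κ₀ M (p : ZMod (p^M)) (by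
      rw [← Nat.cast_pow]
      exact ZMod.natCast_self _) le_rfl h
    (C D' * (Ug * (Pψ - Pg) + (Vg * h) * Pg)) (-(C D' * (Ug * U₁))) (Qg * Pg) (Wg - w)
    (by
      refine Nu.C_mul _ (Nu.add ?_ ?_)
      · refine Nu.mul (sUg.mono (j := κ₀) h0 (by omega)) ?_
        exact (nPψ.sub nPg).mono h0 (by omega)
      · refine Nu.mul ((sVg.mul hhs).mono (j := κ₀) h0 (by omega)) ?_
        exact nPg.mono h0 (by omega))
    (by
      refine Su.neg (Su.C_mul _ ((sUg.mul hU₁s).mono h0 ?_))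
      omega)
    e1
    (hhs.mono h0 (by omega))
    (by
      refine Nu.mul (sQg.mono (j := κ₀) h0 (by omega)) ?_
      exact nPg.mono h0 (by omega))
    e0
  rw [hh, cm_sub, hψ, FrD_cm_expand _ hq, hg, cm_gq, cm_gq, sub_eq_zero] at key
  exact key

end Pool.Agent.SGP2
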