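import Pool.Agent.SGP.Core
import Pool.Agent.SGP2.Dil

open Finset Polynomial

namespace Pool.Agent.SGP2

open Pool.Agent.SGP

/-- uniform dilation data for the primes dividing `S` -/
def DilAll (b : ℕ) (α : ℝ) (S F κ : ℕ) : Prop :=
  ∀ p, p.Prime → p ∣ S → ¬ p ∣ b ∧ ∀ (M B n Λ K w : ℕ) (e : ℕ → ℤ), 1 ≤ M → Dig b B n α e →
    κ * ((n+1)*B)^κ < b^Λ → κ*(Nat.clog 2 M + 1) ≤ K → κ*(Λ+1) ≤ w → Dl b e n K w (p^M) (p^F)

theorem dil_all (b : ℕ) (hb : 2 ≤ b) (P : ℤ[X]) (hP : 1 ≤ P.natDegree) (α : ℝ) (hα : aeval α P = 0)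
    (S F : ℕ) (hS : S ≠ 0)
    (h : ∀ p, p.Prime → p ∣ S → ¬ p ∣ b ∧
        P.map (Int.castRingHom (ZMod p)) ∣ X^(p^F) - X ∧
        ∃ (U V : ℤ[X]) (D : ℤ), U * derivative P + V * P = C D ∧ ¬ (p:ℤ) ∣ D) :
    ∃ κ, DilAll b α S F κ := by
  classical
  have h1 : ∀ p : ℕ, ∃ κ : ℕ, p ∈ S.primeFactors → ∀ (M B n Λ K w x : ℕ) (e : ℕ → ℤ), 1 ≤ M →
      Dig b B n α e → κ * ((n+1)*B)^κ < b^Λ → κ*(Nat.clog 2 M + 1) ≤ K → κ*(Λ+1) ≤ w → x + w ≤ n →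
      Gen (EE e n) K w x → pf (EE e n) (vM b e (p^M)) (x/p^F) = pf (EE e n) (vM b e (p^M)) x := by
    intro p
    by_cases hp : p ∈ S.primeFactors
    · obtain ⟨hpr, hpS, _⟩ := Nat.mem_primeFactors.1 hp
      obtain ⟨hpb, hdvd, U, V, D, hbez, hD⟩ := h p hpr hpS
      obtain ⟨κ, hκ⟩ := dil b hb P hP α hα p F hpr hpb hdvd U V D hbez hD
      exact ⟨κ, fun _ => hκ⟩
    · exact ⟨0, fun h => absurd h hp⟩
  choose κ hκ using h1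
  refine ⟨∑ p ∈ S.primeFactors, κ p, ?_⟩
  intro p hpr hpS
  refine ⟨(h p hpr hpS).1, ?_⟩
  intro M B n Λ K w e hM hDig hΛ hK hw x hx hg
  have hp : p ∈ S.primeFactors := Nat.mem_primeFactors.2 ⟨hpr, hpS, hS⟩
  have hle : κ p ≤ ∑ p ∈ S.primeFactors, κ p :=
    Finset.single_le_sum (f := κ) (fun _ _ => Nat.zero_le _) hp
  have hB1 : 1 ≤ B := by
    have h1 := hDig.bd 0 (Nat.zero_le _)
    have h2 : 0 < |e 0| := abs_pos.2 hDig.zero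
    omega
  have hX : 1 ≤ (n+1)*B := Nat.mul_pos (by omega) hB1
  refine hκ p hp M B n Λ K w x e hM hDig ?_ ?_ ?_ hx hg
  · refine lt_of_le_of_lt ?_ hΛ
    exact Nat.mul_le_mul hle (Nat.pow_le_pow_right hX hle)
  · exact (Nat.mul_le_mul_right _ hle).trans hK
  · exact (Nat.mul_le_mul_right _ hle).trans hw

theorem core (b : ℕ) (hb : 2 ≤ b) (α : ℝ) (m N F κ Cw Cs : ℕ) (hm : 1 ≤ m)
    (hN : 10^9*m^3 ≤ N) (hF : 1 ≤ F) (hdil : DilAll b α (N*(N-m)*(N-2*m)) F κ)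
    (hwk : WalkC m N F Cw) (hst : StartC b α Cs)
    (B n l L T M Λ K w r₀ r y z ρ : ℕ) (e : ℕ → ℤ) (hDig : Dig b B n α e) (hM1 : 1 ≤ M)
    (hM : B*(l+1)*b^l < 2^M) (hΛ : κ*((n+1)*B)^κ < b^Λ) (hK : κ*(Nat.clog 2 M + 1) + N^F ≤ K)
    (hw : κ*(Λ+1) + N^F*(l+1) ≤ w) (c : Fin T → ℕ)
    (hc : ∀ k ≤ n, e k ≠ 0 → ∃ i, c i ≤ k ∧ k < c i + L)
    (hr₀ : T^K*(K*L+2*w) ≤ r₀) (hr : N^F*l + 2*r₀ + 2 ≤ r) (hL : L ≤ r) (hI : Iso e l r y n)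
    (hρ : ρ = N^F*l + r₀ + 1) (hz : Cw*(N^F*(y + r₀ + 1 + 3*ρ)) ≤ z) (hz1 : r₀ ≤ z)
    (hzy : y ≤ z) (hz2 : 1 ≤ z)
    (hn : N^F*(Cw*(Cs*z) + ρ) + (N^F*l + r₀ + w + 2*l + ρ) ≤ n) (hn2 : Cs*z + l ≤ n)
    (hsz : Cs*B ≤ b^z)
    (hwalk : Cw*(T+1)^Cw*(2*N^F*ρ+1) ≤ z) : False := by
  classical
  have hm3 : m ≤ m^3 := Nat.le_self_pow (by norm_num) m
  have hmN : 3*m ≤ N := by omega
  have hN1 : 1 ≤ N := by omega
  have hNm1 : 1 ≤ N - m := by omega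
  have hN2m1 : 1 ≤ N - 2*m := by omega
  have hNmN : N - m ≤ N := Nat.sub_le _ _
  have hN2mN : N - 2*m ≤ N := Nat.sub_le _ _
  clear hN hm3
  have hNF : 1 ≤ N^F := Nat.one_le_pow _ _ (Nat.lt_of_lt_of_le Nat.zero_lt_one hN1)
  have hS : ∀ p, p.Prime → p ∣ N*(N-m)*(N-2*m) → p ≤ N := by
    intro p hp hd
    rcases (Nat.Prime.dvd_mul hp).1 hd with h | h
    · rcases (Nat.Prime.dvd_mul hp).1 h with h | h
      · exact Nat.le_of_dvd hN1 h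
      · exact (Nat.le_of_dvd hNm1 h).trans hNmN
    · exact (Nat.le_of_dvd hN2m1 h).trans hN2mN
  have hl1w : N^F*(l+1) ≤ w := (Nat.le_add_left _ _).trans hw
  have hKF : N^F ≤ K := (Nat.le_add_left _ _).trans hK
  have hκK : κ*(Nat.clog 2 M + 1) ≤ K := (Nat.le_add_right _ _).trans hK
  have hκw : κ*(Λ+1) ≤ w := (Nat.le_add_right _ _).trans hw
  have hlw : l + 1 ≤ w := (Nat.le_mul_of_pos_left _ hNF).trans hl1w
  have hE : Env b B e l r r₀ y n K w :=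
    core_env b hb α B n l L T K w r₀ r y _ e hDig ((Nat.le_add_left _ _).trans hlw) hlw c hc rfl hr₀
      (hNF.trans hKF) hI
  -- the finset of visible starts
  set V : Finset ℕ := (range (n+1)).filter (fun v => Vs b e l v ∧ y ≤ v) with hV
  have hVm : ∀ v, v ∈ V ↔ v ≤ n ∧ Vs b e l v ∧ y ≤ v := by
    intro v
    rw [hV, mem_filter, mem_range, Nat.lt_succ_iff]
  have hcard : #V ≤ T :=
    core_card b e l r y n L T c hc hDig.zero hL hI V (fun v hv => (hVm v).1 hv)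
  -- start
  have hr₀r : r₀ + 1 ≤ r := by clear hwalk hn hz; omega
  obtain ⟨v₀, hv0, hv0z, hv0C⟩ := hst B n l r r₀ y K w z e hDig hE hzy hz2 hz1 hr₀r hsz hn2
  have hv0V : v₀ ∈ V := (hVm _).2
    ⟨hv0C.trans ((Nat.le_add_right _ _).trans hn2), hv0, hzy.trans hv0z⟩
  -- steps
  obtain ⟨ys, hys⟩ : ∃ ys, ys = y + r₀ + 1 := ⟨_, rfl⟩
  obtain ⟨Y, hY⟩ : ∃ Y, Y = n - (N^F*l + r₀ + w + 2*l + ρ) := ⟨_, rfl⟩
  have hYn : N^F*(Cw*(Cs*z) + ρ) ≤ Y := by rw [hY]; exact Nat.le_sub_of_add_le hn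
  have hY1 : Y + (N^F*l + r₀ + w + 2*l + ρ) ≤ n := by
    rw [hY]; exact (Nat.sub_add_cancel ((Nat.le_add_left _ _).trans hn)).le
  have hY2 : Y + (N^F*l + r₀ + w + 2*l) ≤ n := (Nat.add_le_add_left (Nat.le_add_right _ _) _).trans hY1
  have hY3 : Y + ρ ≤ n := (Nat.add_le_add_left (Nat.le_add_left _ _) _).trans hY1
  have hUp : ∀ p, p.Prime → p ∣ N*(N-m)*(N-2*m) → ∀ v, Vs b e l v → ys ≤ v → p^F * v ≤ Y →
      ∃ v', Vs b e l v' ∧ |(v':ℤ) - (p:ℤ)^F*v| ≤ ρ := by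
    intro p hp hd v hv h1 h2
    exact core_up b B e l r r₀ y n K w M N F ρ Y hE hM hKF hl1w hr hρ hY2 p hp (hS p hp hd)
      (hdil p hp hd).1 ((hdil p hp hd).2 M B n Λ K w e hM1 hDig hΛ hκK hκw) v hv (hys ▸ h1) h2
  have hDown : ∀ p, p.Prime → p ∣ N*(N-m)*(N-2*m) → ∀ v, Vs b e l v → p^F * ys ≤ v → v ≤ Y →
      ∃ v', Vs b e l v' ∧ |(p:ℤ)^F*v' - v| ≤ ρ := by
    intro p hp hd v hv h1 h2
    exact core_down b B e l r r₀ y n K w M N F ρ Y hE hM hKF hl1w hr hρ hY2 p hp (hS p hp hd)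
      (hdil p hp hd).1 ((hdil p hp hd).2 M B n Λ K w e hM1 hDig hΛ hκK hκw) v hv (hys ▸ h1) h2
  -- range of the macro steps
  have hz' : Cw*(N^F*(ys + 3*ρ)) ≤ z := by rw [hys]; exact hz
  have hrange : ∀ v, v₀ ≤ Cw*v → v ≤ Cw*v₀ →
      N^F*(ys + 3*ρ) ≤ v ∧ N^F*(v+ρ) ≤ Y := fun v h1 h2 =>
    core_range Cw (N^F) ys ρ z v₀ v Y (Cs*z) hz2 hv0z hv0C hz' hYn h1 h2
  have hyys : y ≤ ys := by rw [hys, Nat.add_assoc]; exact Nat.le_add_right _ _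
  have hcastm : (((N-m:ℕ):ℤ)) = (N:ℤ) - m := by
    rw [Nat.cast_sub ((Nat.le_mul_of_pos_left m (by norm_num : 0 < 3)).trans hmN)]
  have hcast2m : (((N-2*m:ℕ):ℤ)) = (N:ℤ) - 2*m := by
    rw [Nat.cast_sub ((Nat.mul_le_mul_right m (by norm_num : 2 ≤ 3)).trans hmN)]
    push_cast; ring
  have hlow : ∀ v, N^F*(ys + 3*ρ) ≤ v → ys ≤ v ∧ ρ ≤ v := by
    intro v h1
    have h2 : ys + 3*ρ ≤ v := (Nat.le_mul_of_pos_left _ hNF).trans h1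
    constructor
    · exact (Nat.le_add_right _ _).trans h2
    · exact ((Nat.le_mul_of_pos_left ρ (by norm_num : 0 < 3)).trans (Nat.le_add_left _ _)).trans h2
  have hmac : ∀ a a' : ℕ, 1 ≤ a → 1 ≤ a' → a ≤ N → a' ≤ N → a ∣ N*(N-m)*(N-2*m) →
      a' ∣ N*(N-m)*(N-2*m) → ∀ v ∈ V, v₀ ≤ Cw*v → v ≤ Cw*v₀ →
      ∃ v' ∈ V, |(a':ℤ)^F*v' - (a:ℤ)^F*v| ≤ ((2*N^F*ρ : ℕ):ℤ) := by
    intro a a' ha1 ha1' haN haN' had had' v hv h1 h2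
    obtain ⟨_, hvs, _⟩ := (hVm v).1 hv
    obtain ⟨hr1, hr2⟩ := hrange v h1 h2
    obtain ⟨hl1, hl2⟩ := hlow v hr1
    have hA : a^F ≤ N^F := Nat.pow_le_pow_left haN F
    have hA' : a'^F ≤ N^F := Nat.pow_le_pow_left haN' F
    have hU := macro_up (Vs b e l) (fun p => p ∣ N*(N-m)*(N-2*m)) F ρ ys Y hF hUp a ha1
      (fun p _ hd => hd.trans had) v hvs hl1 hl2 ((Nat.mul_le_mul_right _ hA).trans hr2)
    have hD : ∀ v1, Vs b e l v1 → a'^F*(ys+ρ) ≤ v1 + ρ → v1 ≤ Y →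
        ∃ v', Vs b e l v' ∧ |(a':ℤ)^F*v' - v1| ≤ (a':ℤ)^F*ρ := fun v1 hv1 h3 h4 =>
      macro_down (Vs b e l) (fun p => p ∣ N*(N-m)*(N-2*m)) F ρ ys Y hF hDown a' ha1'
        (fun p _ hd => hd.trans had') v1 hv1 h3 h4
    obtain ⟨v', q1, q2, q3, q4⟩ := mstep (Vs b e l) (a^F) (a'^F) (N^F) v ρ ys y Y
      (Nat.one_le_pow _ _ ha1) (Nat.one_le_pow _ _ ha1') hA hA' hyys hr1 hr2
      (by push_cast; exact hU) (by push_cast; exact hD)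
    refine ⟨v', (hVm _).2 ⟨q3.trans hY3, q1, q2⟩, ?_⟩
    push_cast at q4 ⊢
    exact q4
  have hfin := hwk V v₀ (2*N^F*ρ) (T+1) hv0V ?_ ?_ (hwalk.trans hv0z)
  · exact absurd (hfin.trans hcard) (Nat.not_succ_le_self T)
  · -- multiply by `N`, divide by `N - m`
    intro v hv h1 h2
    have h := hmac N (N-m) hN1 hNm1 le_rfl hNmN ((Dvd.intro _ rfl).mul_right _)
      ((Dvd.intro_left _ rfl).mul_right _) v hv h1 h2
    rw [hcastm] at h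
    exact h
  · -- multiply by `N - 2m`, divide by `N`
    intro v hv h1 h2
    have h := hmac (N-2*m) N hN2m1 hN1 hN2mN le_rfl (Dvd.intro_left _ rfl)
      ((Dvd.intro _ rfl).mul_right _) v hv h1 h2
    rw [hcast2m] at h
    exact h

end Pool.Agent.SGP2
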