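import Pool.Agent.SGP.Main
import Pool.Agent.SGP2.Core
import Pool.Agent.SGP2.Bounds

open Finset Polynomial Filter

namespace Pool.Agent.SGP2

open Pool.Agent.SGP

theorem main (α : ℝ) (hα : IsAlgebraic ℚ α) (hirr : Irrational α) (b B : ℕ) (hb : 2 ≤ b) :
    ∃ κ : ℕ, ∀ᶠ n : ℕ in atTop, ∀ e : ℕ → ℤ, (∀ k, |e k| ≤ B) →
      HasSum (fun k => (e k : ℝ)/(b:ℝ)^k) α → ∀ l L T : ℕ, 1 ≤ l → 1 ≤ L → 2 ≤ T →
      (T:ℝ)^(κ*(Nat.log 2 l + 1)) * (L + Real.log n) ≤ n → ∀ c : Fin T → ℕ,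
      (∀ k ≤ n, e k ≠ 0 → ∃ i, c i ≤ k ∧ k < c i + L) →
      ∃ k k' : ℕ, n ≤ κ*k ∧ k + l < k' ∧ k' ≤ n ∧ e k ≠ 0 ∧ e k' ≠ 0 ∧
        ((k':ℝ) - k) < (T:ℝ)^(κ*(Nat.log 2 l + 1)) * (L + Real.log n) := by
  classical
  -- shift
  set α' : ℝ := α + ((B+1 : ℕ) : ℝ) with hα'
  have hα'a : IsAlgebraic ℚ α' := hα.add (isAlgebraic_natCast (R := ℚ) (A := ℝ) (B+1))
  have hα'i : Irrational α' := hirr.add_natCast (B+1)
  set B' := 2*B+1 with hB'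
  obtain ⟨P, m, N, F, hP, hPα, hm, hN, hF, hpr⟩ := alg_data α' hα'a b hb
  have hm3 : m ≤ m^3 := Nat.le_self_pow (by norm_num) m
  have hmN : 3*m ≤ N := by omega
  have hS : N*(N-m)*(N-2*m) ≠ 0 := by
    refine Nat.mul_ne_zero (Nat.mul_ne_zero ?_ ?_) ?_ <;> omega
  obtain ⟨κD, hκD⟩ := dil_all b hb P hP α' hPα (N*(N-m)*(N-2*m)) F hS hpr
  obtain ⟨Cw, hCw⟩ := walk m N F hm hN hF
  obtain ⟨Cs, hCs⟩ := start α' hα'a hα'i b hb
  set Q := N^F with hQ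
  have hQ1 : 1 ≤ Q := Nat.one_le_pow _ _ (by omega)
  set μ := B' + b + 2 with hμ
  obtain ⟨cc, hcc⟩ := bounds κD μ Q B' Cw hQ1
  set κz := 4*Q*(Cw+1)*(Cs+1) with hκz
  have hκz1 : 4 ≤ κz := by
    rw [hκz]
    have h1 : 1 ≤ Q*((Cw+1)*(Cs+1)) := Nat.mul_pos hQ1 (Nat.mul_pos (by omega) (by omega))
    calc 4 = 4*1 := rfl
      _ ≤ 4*(Q*((Cw+1)*(Cs+1))) := Nat.mul_le_mul_left _ h1
      _ = 4*Q*(Cw+1)*(Cs+1) := by ring
  set κ := cc + 2 + 48*κz*(Cw*Q+1) with hκ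
  refine ⟨κ, ?_⟩
  filter_upwards [eventually_ge_atTop (3 + κz*(Cs*B'+1))] with n hn
  intro e hbd hs l L T hl hL hT hsize c hc
  by_contra hcon
  push Not at hcon
  -- logarithms
  set D := Nat.log 2 n + 1 with hD
  have hD1 : 1 ≤ D := by omega
  have hnD : n < 2^D := Nat.lt_pow_succ_log_self (by norm_num) n
  have hn0 : (0:ℝ) < n := by
    have : 0 < n := by omega
    exact_mod_cast this
  have hlog1 : 1 ≤ Real.log n := by
    rw [← Real.log_exp 1]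
    refine Real.log_le_log (Real.exp_pos _) ?_
    have h1 : (3:ℝ) ≤ n := by
      have : 3 ≤ n := by omega
      exact_mod_cast this
    linarith [Real.exp_one_lt_d9]
  have hDlog : (D:ℝ) ≤ 3 * Real.log n := by
    have h1 : (2:ℝ)^(Nat.log 2 n) ≤ n := by
      exact_mod_cast Nat.pow_log_le_self 2 (by omega)
    have h2 : (Nat.log 2 n : ℝ) * Real.log 2 ≤ Real.log n := by
      rw [← Real.log_pow]
      exact Real.log_le_log (by positivity) h1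
    have h3 : (0.6931471803:ℝ) < Real.log 2 := Real.log_two_gt_d9
    have h4 : (0:ℝ) ≤ (Nat.log 2 n : ℝ) := by positivity
    rw [hD]
    push_cast
    nlinarith
  -- the shifted digits
  set e' : ℕ → ℤ := fun k => if k = 0 then e 0 + (B+1) else e k with he'
  have he'0 : e' 0 ≠ 0 := by
    have h1 := hbd 0
    rw [abs_le] at h1
    simp only [he', if_true]
    omega
  have he's : ∀ k, k ≠ 0 → e' k = e k := by
    intro k hk
    simp only [he', if_neg hk]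
  have hbd' : ∀ k, |e' k| ≤ (B' : ℕ) := by
    intro k
    have h1 := hbd k
    rw [abs_le] at h1 ⊢
    by_cases hk : k = 0
    · subst hk
      simp only [he', if_true, hB']
      push_cast
      constructor <;> linarith
    · rw [he's k hk, hB']
      push_cast
      constructor <;> linarith
  have hs' : HasSum (fun k => (e' k : ℝ)/(b:ℝ)^k) α' := by
    have h1 : HasSum (fun k : ℕ => if k = 0 then (((B+1:ℕ):ℝ)) else 0) (((B+1:ℕ):ℝ)) := by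
      have := hasSum_ite_eq (0:ℕ) (((B+1:ℕ):ℝ))
      exact this
    have h2 := hs.add h1
    have h3 : (fun k : ℕ => (e k : ℝ)/(b:ℝ)^k + if k = 0 then (((B+1:ℕ):ℝ)) else 0) =
        fun k => (e' k : ℝ)/(b:ℝ)^k := by
      funext k
      by_cases hk : k = 0
      · subst hk
        simp only [he', if_true, pow_zero, div_one]
        push_cast
        ring
      · rw [if_neg hk, he's k hk, add_zero]
    rw [h3] at h2
    exact h2
  have hDig : Dig b B' n α' e' := dig_of_hasSum b B' hb α' e' he'0 hbd' hs' n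
  -- parameters
  set M := μ*l with hM
  set Λ := κD*(D+B'+1) with hΛ
  set K := κD*(Nat.clog 2 (μ*l) + 1) + Q with hK
  set w := κD*(κD*(D+B'+1)+1) + Q*(l+1) with hw
  set r₀ := (T+1)^K*(K*L+2*w) with hr₀
  set ρ := Q*l + r₀ + 1 with hρ
  set r := Q*l + 2*r₀ + 2 + L with hr
  obtain ⟨y0, hy0⟩ : ∃ t : ℕ, t = n/κ := ⟨_, rfl⟩
  obtain ⟨z, hz⟩ : ∃ t : ℕ, t = n/κz := ⟨_, rfl⟩
  set y := y0 + 1 with hy
  set E := T^(cc*(Nat.log 2 l + 1))*(L+D) with hE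
  obtain ⟨b1, b2, b3, b4, b5, b6⟩ := hcc T l L D hT hl hL hD1 K w r₀ ρ hK hw hr₀ hρ
  have hlogn : (0:ℝ) ≤ L + Real.log n := by positivity
  have hT2 : (2:ℝ) ≤ T := by exact_mod_cast hT
  -- size of `E`
  have hER : (E:ℝ) ≤ 3 * ((T:ℝ)^(cc*(Nat.log 2 l + 1)) * (L + Real.log n)) := by
    rw [hE]
    push_cast
    have h1 : (L:ℝ) + D ≤ 3 * (L + Real.log n) := by
      have : (0:ℝ) ≤ L := by positivity
      linarith
    calc (T:ℝ)^(cc*(Nat.log 2 l + 1)) * (L + D) ≤ (T:ℝ)^(cc*(Nat.log 2 l + 1)) * (3 * (L + Real.log n)) :=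
          mul_le_mul_of_nonneg_left h1 (by positivity)
      _ = 3 * ((T:ℝ)^(cc*(Nat.log 2 l + 1)) * (L + Real.log n)) := by ring
  have hpow : ∀ g : ℕ, (g:ℝ) ≤ (T:ℝ)^(g*(Nat.log 2 l + 1)) := by
    intro g
    have h1 : (g:ℝ) ≤ (2:ℝ)^g := by
      have := (Nat.lt_two_pow_self (n := g)).le
      exact_mod_cast this
    calc (g:ℝ) ≤ (2:ℝ)^g := h1
      _ ≤ (2:ℝ)^(g*(Nat.log 2 l + 1)) := pow_le_pow_right₀ (by norm_num) (Nat.le_mul_of_pos_right _ (Nat.succ_pos _))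
      _ ≤ (T:ℝ)^(g*(Nat.log 2 l + 1)) := pow_le_pow_left₀ (by norm_num) hT2 _
  have hbig : ∀ g : ℕ, cc + g ≤ κ → (g:ℝ) * ((T:ℝ)^(cc*(Nat.log 2 l + 1)) * (L + Real.log n)) ≤
      (T:ℝ)^(κ*(Nat.log 2 l + 1)) * (L + Real.log n) := by
    intro g hg
    have h1 : (T:ℝ)^(cc*(Nat.log 2 l + 1)) * (T:ℝ)^(g*(Nat.log 2 l + 1)) ≤ (T:ℝ)^(κ*(Nat.log 2 l + 1)) := by
      rw [← pow_add, ← add_mul]
      exact pow_le_pow_right₀ (by linarith) (Nat.mul_le_mul_right _ hg)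
    calc (g:ℝ) * ((T:ℝ)^(cc*(Nat.log 2 l + 1)) * (L + Real.log n)) = ((T:ℝ)^(cc*(Nat.log 2 l + 1)) * g) * (L + Real.log n) := by ring
      _ ≤ ((T:ℝ)^(cc*(Nat.log 2 l + 1)) * (T:ℝ)^(g*(Nat.log 2 l + 1))) * (L + Real.log n) := by
          refine mul_le_mul_of_nonneg_right ?_ hlogn
          exact mul_le_mul_of_nonneg_left (hpow g) (by positivity)
      _ ≤ (T:ℝ)^(κ*(Nat.log 2 l + 1)) * (L + Real.log n) := mul_le_mul_of_nonneg_right h1 hlogn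
  have hEn : 16*κz*(Cw*Q+1)*E ≤ n := by
    have h1 := hbig (48*κz*(Cw*Q+1)) (by omega)
    have h2 : ((48*κz*(Cw*Q+1) : ℕ) : ℝ) * E ≤ 3 * n := by
      calc ((48*κz*(Cw*Q+1) : ℕ) : ℝ) * E ≤
            ((48*κz*(Cw*Q+1) : ℕ) : ℝ) * (3 * ((T:ℝ)^(cc*(Nat.log 2 l + 1)) * (L + Real.log n))) :=
            mul_le_mul_of_nonneg_left hER (by positivity)
        _ = 3 * (((48*κz*(Cw*Q+1) : ℕ) : ℝ) * ((T:ℝ)^(cc*(Nat.log 2 l + 1)) * (L + Real.log n))) := by ring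
        _ ≤ 3 * n := by linarith
    have h3 : 48*κz*(Cw*Q+1)*E ≤ 3*n := by exact_mod_cast h2
    have h4 : 48*κz*(Cw*Q+1)*E = 3*(16*κz*(Cw*Q+1)*E) := by ring
    omega
  have hz1 : κz*z ≤ n := by rw [hz]; exact Nat.mul_div_le n κz
  have hz2 : n < κz*(z+1) := by
    rw [hz]
    exact Nat.lt_mul_div_succ n (by omega)
  have hzE : 16*((Cw*Q+1)*E) ≤ z := by
    have h1 : κz*(16*((Cw*Q+1)*E)) < κz*(z+1) := by
      calc κz*(16*((Cw*Q+1)*E)) = 16*κz*(Cw*Q+1)*E := by ring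
        _ ≤ n := hEn
        _ < _ := hz2
    have h2 := Nat.lt_of_mul_lt_mul_left h1
    omega
  have hE1 : 2 ≤ E := by
    rw [hE]
    have h1 : 1 ≤ T^(cc*(Nat.log 2 l + 1)) := Nat.one_le_pow _ _ (by omega)
    calc 2 = 1*2 := rfl
      _ ≤ T^(cc*(Nat.log 2 l + 1))*(L+D) := Nat.mul_le_mul h1 (by omega)
  have hzE' : 16*E ≤ z := by
    refine le_trans ?_ hzE
    exact Nat.mul_le_mul_left _ (Nat.le_mul_of_pos_left _ (by omega))
  have hκ0 : 0 < κ := by omega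
  have hyz : 48*((Cw*Q+1)*(y-1)) ≤ z := by
    have h0 : y - 1 = y0 := by omega
    have h1 : κ*(y-1) ≤ n := by rw [h0, hy0]; exact Nat.mul_div_le n κ
    have h2 : 48*κz*(Cw*Q+1)*(y-1) ≤ κ*(y-1) := Nat.mul_le_mul_right _ (by omega)
    have h3 : κz*(48*((Cw*Q+1)*(y-1))) < κz*(z+1) := by
      calc κz*(48*((Cw*Q+1)*(y-1))) = 48*κz*(Cw*Q+1)*(y-1) := by ring
        _ ≤ n := h2.trans h1
        _ < _ := hz2
    have h4 := Nat.lt_of_mul_lt_mul_left h3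
    omega
  have hyz1 : 48*(y-1) ≤ z := by
    refine le_trans ?_ hyz
    exact Nat.mul_le_mul_left _ (Nat.le_mul_of_pos_left _ (by omega))
  have hy1 : 1 ≤ y := by omega
  have hyz2 : 48*(Cw*Q*y) ≤ z + 48*(Cw*Q) := by
    have h1 : Cw*Q*y = Cw*Q*(y-1) + Cw*Q := by
      rw [← Nat.mul_succ]; congr 1
    have h2 : Cw*Q*(y-1) ≤ (Cw*Q+1)*(y-1) := Nat.mul_le_mul_right _ (by omega)
    omega
  -- isolation
  have hrE : r ≤ E := b2
  have hrR : (r:ℝ) ≤ (T:ℝ)^(κ*(Nat.log 2 l + 1)) * (L + Real.log n) := by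
    have h1 := hbig 3 (by
      have : 1 ≤ κz*(Cw*Q+1) := Nat.mul_pos (by omega) (by omega)
      have h2 : 48*κz*(Cw*Q+1) = 48*(κz*(Cw*Q+1)) := by ring
      omega)
    have h2 : (r:ℝ) ≤ E := by exact_mod_cast hrE
    push_cast at h1
    linarith
  have hI : Iso e' l r y n := by
    intro k k' h1 h2 h3 h4 h5
    by_cases h6 : k' ≤ k + l
    · exact Or.inl h6
    · right
      have hk0 : k ≠ 0 := by omega
      have hk0' : k' ≠ 0 := by omega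
      rw [he's k hk0] at h4
      rw [he's k' hk0'] at h5
      have h7 : n ≤ κ*k := by
        have h8 : n/κ < k := by rw [← hy0]; omega
        have h9 := (Nat.div_lt_iff_lt_mul hκ0).1 h8
        rw [mul_comm] at h9
        exact h9.le
      have h8 := hcon k k' h7 (by omega) h3 h4 h5
      have h9 : (r:ℝ) ≤ (k':ℝ) - k := hrR.trans h8
      have h10 : (k:ℝ) + r ≤ k' := by linarith
      exact_mod_cast h10
  -- the cover
  set c' : Fin (T+1) → ℕ := Fin.cons 0 c with hc'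
  have hcov : ∀ k ≤ n, e' k ≠ 0 → ∃ i, c' i ≤ k ∧ k < c' i + L := by
    intro k hk hne
    by_cases hk0 : k = 0
    · refine ⟨0, ?_⟩
      rw [hc', Fin.cons_zero]
      omega
    · rw [he's k hk0] at hne
      obtain ⟨i, h1, h2⟩ := hc k hk hne
      refine ⟨i.succ, ?_⟩
      rw [hc', Fin.cons_succ]
      exact ⟨h1, h2⟩
  have hκz4 : 4*(Q*Cw*Cs) ≤ κz := by
    rw [hκz]
    calc 4*(Q*Cw*Cs) ≤ 4*(Q*(Cw+1)*(Cs+1)) := by gcongr <;> omega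
      _ = 4*Q*(Cw+1)*(Cs+1) := by ring
  have hκz5 : 4*Cs ≤ κz := by
    rw [hκz]
    calc 4*Cs ≤ 4*((Q*(Cw+1))*(Cs+1)) := by
          refine Nat.mul_le_mul_left _ ?_
          calc Cs ≤ 1*(Cs+1) := by omega
            _ ≤ (Q*(Cw+1))*(Cs+1) := Nat.mul_le_mul_right _ (Nat.mul_pos hQ1 (by omega))
      _ = 4*Q*(Cw+1)*(Cs+1) := by ring
  have hn4 : 4*(Q*(Cw*(Cs*z))) ≤ n := by
    calc 4*(Q*(Cw*(Cs*z))) = 4*(Q*Cw*Cs)*z := by ring
      _ ≤ κz*z := Nat.mul_le_mul_right _ hκz4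
      _ ≤ n := hz1
  have hn5 : 4*(Cs*z) ≤ n := by
    calc 4*(Cs*z) = 4*Cs*z := by ring
      _ ≤ κz*z := Nat.mul_le_mul_right _ hκz5
      _ ≤ n := hz1
  have hn6 : 16*E ≤ n := hzE'.trans (by rw [hz]; exact Nat.div_le_self _ _)
  refine core b hb α' m N F κD Cw Cs hm hN hF hκD hCw hCs B' n l L (T+1) M Λ K w r₀ r y z ρ e' hDig
    ?_ ?_ ?_ ?_ ?_ c' hcov ?_ ?_ ?_ hI hρ ?_ ?_ ?_ ?_ ?_ ?_ ?_ ?_
  · exact Nat.mul_pos (by omega) (by omega)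
  · exact mu_bound b B' l hl
  · exact lam_bound b κD B' n D hb hnD
  · exact le_rfl
  · exact le_rfl
  · exact le_rfl
  · exact (show Q*l + 2*r₀ + 2 ≤ r by rw [hr]; omega)
  · rw [hr]; omega
  · have h1 : Cw*(Q*(y + r₀ + 1 + 3*ρ)) = Cw*Q*y + Cw*(Q*(r₀+1+3*ρ)) := by ring
    have h2 : Cw*(N^F*(y + r₀ + 1 + 3*ρ)) = Cw*(Q*(y + r₀ + 1 + 3*ρ)) := rfl
    omega
  · omega
  · omega
  · omega
  · have h1 : N^F*(Cw*(Cs*z) + ρ) = Q*(Cw*(Cs*z)) + Q*ρ := by rw [← hQ]; ring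
    have h2 : N^F*l = Q*l := rfl
    rw [h1, h2]
    clear hyz2 hyz1 hyz hzE hzE' hz2 hz1 b1 b2 b3 b4 b6 hκz4 hκz5 hn5
    omega
  · omega
  · have h1 : κz*(Cs*B'+1) ≤ n := by omega
    have h2 : Cs*B' + 1 ≤ z := by
      rw [hz, Nat.le_div_iff_mul_le (by omega), mul_comm]
      exact h1
    have h3 : z < b^z := Nat.lt_pow_self (by omega)
    omega
  · exact (show Cw*(T+1+1)^Cw*(2*N^F*ρ+1) = Cw*(T+2)^Cw*(2*Q*ρ+1) from rfl) ▸ (b6.trans (by omega))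

end Pool.Agent.SGP2
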